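import Pool.Agent.H74.TSD.AsmP
import Pool.Agent.H74.TSD.FinC
import Pool.Agent.H74.TSD.DefsR
import Pool.Agent.H74.TSD.CDb
import Pool.Agent.H13.TSD.SIN
import Pool.Agent.H20.TSD.W2
import Pool.Agent.H20.TSD.G2
import Pool.Agent.H20.TSD.CC
import Pool.Agent.H33.TSD.CW
import Pool.Agent.H86.TSD.CN
import Pool.Agent.H20.TS.CUW

/-!
Totally separable translative packings of cylinders (products of a planar convex body and a
parallelotope of dimension `n ≥ 1`) in every dimension `n + 2 ≥ 3`, and of the bodies that are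
everywhere at least as wide.
-/

open MeasureTheory Set Metric
open scoped ENNReal

namespace Pool.Agent.Results.MP_b907b5_co.Cylinders

open Pool.Agent.H73.TS Pool.Agent.H74.TSD

theorem result : ∀ (n : ℕ), 1 ≤ n →
    ∀ (A : Set (ℝ × ℝ)), IsCompact A → Convex ℝ A → (interior A).Nonempty →
    ∀ (w : Fin (n + 2) → E (n + 2)) (v : E (n + 2)), LinearIndependent ℝ w →
    ∃ (w' : Fin (n + 2) → E (n + 2)) (v' : E (n + 2)), LinearIndependent ℝ w' ∧
      Cyl w v A ⊆ Par w' v' ∧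
      ∀ K : Set (E (n + 2)), Body K → AsWide (Cyl w v A) K →
        (∀ T : Set (E (n + 2)), TotSep K T → DensLe K (Par w' v') T) ∧
        (∀ (w₂ : Fin (n + 2) → E (n + 2)) (v₂ : E (n + 2)), LinearIndependent ℝ w₂ →
          K ⊆ Par w₂ v₂ → volume (Par w' v') ≤ volume (Par w₂ v₂)) ∧
        (K ⊆ Par w' v' →
          Packing K (Lat w') ∧ TotSep K (Lat w') ∧ DensEq K (Par w' v') (Lat w')) := by
  intro n hn A hA hAc hAi w v hw
  obtain ⟨w', v', hw', hsub, H⟩ :=
    finC (Pool.Agent.H86.TSD.pf_CN Pool.Agent.H20.TSD.pf_W2)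
      (CDb.pf_CDb (Pool.Agent.H20.TSD.pf_G2 Pool.Agent.H20.TSD.pf_W2)
        (Pool.Agent.H20.TSD.pf_CC Pool.Agent.H65.TSD.w1
          (Pool.Agent.H13.TSD.pf_SIN Pool.Agent.H65.TSD.w1) Pool.Agent.H20.TSD.pf_W2
          Pool.Agent.H33.TSD.pf_CW aPT)
        Pool.Agent.H20.TS.grd Pool.Agent.H83.TS.par)
      Pool.Agent.H78.TS.lat aLAD n hn A hA hAc hAi w v hw
  exact ⟨w', v', hw', hsub, fun K hK hAs => H K hK.1 hK.2.1 hK.2.2 hAs⟩

end Pool.Agent.Results.MP_b907b5_co.Cylinders
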