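import Pool.Agent.H73.TS.AsmC
import Pool.Agent.H33.TS.LAD
import Pool.Agent.H54.TS.LAC

/-!
Totally separable translative packings in every dimension `d ≥ 3`: a convex body `K` that is in
every direction at least as wide as the product of an ellipsoid of dimension at most `8` and a
parallelotope, both inscribed in a parallelotope `P`, has no totally separable packing of upper
density larger than `vol K / vol P`; every parallelotope around `K` has volume at least `vol P`;
and if `K ⊆ P`, then the lattice packing generated by `P` is totally separable and attains the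
bound.
-/

open MeasureTheory Set Metric
open scoped ENNReal

namespace Pool.Agent.Results.MP_b907b5_co.EllipsoidalBodies

open Pool.Agent.H73.TS

theorem ell_sub_ellPar {d : ℕ} (w : Fin d → E d) (v : E d) (I : Finset (Fin d)) :
    Ell w v ⊆ EllPar w v I := by
  rintro y ⟨a, ha, rfl⟩
  refine ⟨a, le_trans ?_ ha, fun i _ => ?_, rfl⟩
  · exact Finset.sum_le_sum_of_subset_of_nonneg (Finset.subset_univ I)
      (fun i _ _ => sq_nonneg (a i))
  · have h1 : a i ^ 2 ≤ 1 / 4 :=
      le_trans (Finset.single_le_sum (f := fun i => a i ^ 2) (fun i _ => sq_nonneg (a i))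
        (Finset.mem_univ i)) ha
    exact abs_le_of_sq_le_sq' (by norm_num; linarith) (by norm_num) |> abs_le.2

theorem result : ∀ (d : ℕ), 3 ≤ d → ∀ (I : Finset (Fin d)), I.card ≤ 8 →
    ∀ (w : Fin d → E d) (v : E d) (K : Set (E d)), LinearIndependent ℝ w →
    IsCompact K → Convex ℝ K → (interior K).Nonempty → AsWide (EllPar w v I) K →
    (∀ T : Set (E d), TotSep K T →
      upDens K T ≤ volume K / volume (Par w v) ∧
      upDensC K T ≤ volume K / volume (Par w v)) ∧
    (∀ (w' : Fin d → E d) (v' : E d), LinearIndependent ℝ w' → K ⊆ Par w' v' →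
      volume (Par w v) ≤ volume (Par w' v')) ∧
    (K ⊆ Par w v →
      Packing K (Lat w) ∧ TotSep K (Lat w) ∧
      upDens K (Lat w) = volume K / volume (Par w v) ∧
      upDensC K (Lat w) = volume K / volume (Par w v)) := by
  intro d hd I hI w v K hw hK hKc hKi hAs
  have hub : ∀ T : Set (E d), TotSep K T →
      upDens K T ≤ volume K / volume (Par w v) ∧
      upDensC K T ≤ volume K / volume (Par w v) := fun T hT =>
    bUPC 8 (by norm_num) bCNTP d I w v K T (by omega) hI hw hK hKc hKi hAs hT
  refine ⟨hub, ?_, ?_⟩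
  · intro w' v' hw' hK'
    exact bHAQ d w w' v v' K hw hw'
      (fun f p hp q hq => hAs f p (ell_sub_ellPar w v I hp) q (ell_sub_ellPar w v I hq)) hK'
  · intro hKP
    obtain ⟨h1, h2⟩ := Pool.Agent.H78.TS.lat d w v K hw hKP
    obtain ⟨h3, h4⟩ := Pool.Agent.H33.TS.pf_LAD Pool.Agent.H78.TS.lat
      (Pool.Agent.H54.TS.lac Pool.Agent.H83.TS.par) d w v K (by omega) hw hK hKc hKP
    exact ⟨h1, h2, le_antisymm (hub _ h2).1 h3, le_antisymm (hub _ h2).2 h4⟩

end Pool.Agent.Results.MP_b907b5_co.EllipsoidalBodies
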