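import Pool.Agent.H74.TSD.AsmP
import Pool.Agent.H74.TSD.FinA
import Pool.Agent.H74.TSD.DefsR
import Pool.Agent.H74.TSD.BD
import Pool.Agent.H16.TSD.A9
import Pool.Agent.H58.TSD.LF
import Pool.Agent.H58.TSD.GC
import Pool.Agent.H65.TSD.CT
import Pool.Agent.H13.TSD.SIN
import Pool.Agent.H49.TSD.NC
import Pool.Agent.H33.TSD.D2
import Pool.Agent.H6.TSD.BC
import Pool.Agent.H86.TSD.MX
import Pool.Agent.H86.TSD.LT
import Pool.Agent.H20.TS.CUW

/-!
Totally separable translative packings in dimension `d ≥ 3` whose separating hyperplanes have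
normals in a given set: `d` independent directions and an arbitrary pencil (a subspace of
dimension at most two of the dual space). For every convex body `K` the best density is attained
by the lattice packing of a circumscribed parallelotope of `K` with facet normals in the set.
-/

open MeasureTheory Set Metric
open scoped ENNReal

namespace Pool.Agent.Results.MP_b907b5_co.RestrictedDirections

open Pool.Agent.H73.TS Pool.Agent.H74.TSD

theorem result : ∀ (d : ℕ), 3 ≤ d →
    ∀ f : Fin d → (E d →L[ℝ] ℝ), LinearIndependent ℝ f →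
    ∀ W : Submodule ℝ (E d →L[ℝ] ℝ), Module.finrank ℝ W ≤ 2 → ∀ K : Set (E d), Body K →
    ∃ (w : Fin d → E d) (v : E d), LinearIndependent ℝ w ∧ K ⊆ Par w v ∧
      (∀ T : Set (E d), TotSepIn (Nrm f W) K T → DensLe K (Par w v) T) ∧
      TotSepIn (Nrm f W) K (Lat w) ∧ DensEq K (Par w v) (Lat w) :=
  fun d hd f hf W hW K hK =>
  finA (Pool.Agent.H86.TSD.pf_MX Pool.Agent.H65.TSD.w1) Pool.Agent.H49.TSD.pf_NC aPG
    (Pool.Agent.H6.TSD.pf_BC Pool.Agent.H65.TSD.w1 (Pool.Agent.H13.TSD.pf_SIN Pool.Agent.H65.TSD.w1)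
      Pool.Agent.H49.TSD.pf_NC Pool.Agent.H33.TSD.pf_D2
      (Pool.Agent.H65.TSD.ct aPT
        (Pool.Agent.H58.TSD.LF.pf_LF
          (Pool.Agent.H16.TSD.pf_A9 (Pool.Agent.H14.TSD.pf_A2 pf_A1) Pool.Agent.H19.TSD.pf_LM))
        Pool.Agent.H58.TSD.GC.pf_GC))
    (pf_BD Pool.Agent.H20.TS.grd) Pool.Agent.H86.TSD.pf_LT Pool.Agent.H65.TSD.w1 aLAD
    d hd f hf W hW K hK.1 hK.2.1 hK.2.2

end Pool.Agent.Results.MP_b907b5_co.RestrictedDirections
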