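import Pool.Agent.H73.TS.AsmC
import Pool.Agent.H74.TSD.FinV
import Pool.Agent.H65.TSD.W1
import Pool.Agent.H65.TSD.PG
import Pool.Agent.H86.TSD.AE
import Pool.Agent.H33.TSD.AV
import Pool.Agent.H33.TSD.LO
import Pool.Agent.H33.TSD.EW
import Pool.Agent.H35.TSD.PB
import Pool.Agent.H23.TSD.DV

/-!
Totally separable translative packings of an arbitrary convex body `K` in three dimensional
space: the density is at most `√(5/2)` times the density of the lattice packing generated by a
circumscribed parallelotope.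
-/

open MeasureTheory Set Metric
open scoped ENNReal

namespace Pool.Agent.Results.MP_b907b5_co.SpaceBound

open Pool.Agent.H73.TS Pool.Agent.H74.TSD

theorem result : ∀ K : Set (E 3), IsCompact K → Convex ℝ K → (interior K).Nonempty →
    ∃ (w : Fin 3 → E 3) (v : E 3), LinearIndependent ℝ w ∧ K ⊆ Par w v ∧
      ∀ T : Set (E 3), TotSep K T →
        upDens K T ≤ ENNReal.ofReal (Real.sqrt (5 / 2)) * (volume K / volume (Par w v)) ∧
        upDensC K T ≤ ENNReal.ofReal (Real.sqrt (5 / 2)) * (volume K / volume (Par w v)) :=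
  finV (Pool.Agent.H33.TSD.pf_LO Pool.Agent.H65.TSD.w1 Pool.Agent.H35.TSD.pf_PB)
    (Pool.Agent.H33.TSD.pf_AV Pool.Agent.H86.TSD.pf_AE) Pool.Agent.H23.TSD.pf_DV
    (Pool.Agent.H33.TSD.pf_EW Pool.Agent.H65.TSD.w1 Pool.Agent.H83.TS.par)
    (Pool.Agent.H65.TSD.pg Pool.Agent.H65.TSD.w1 Pool.Agent.H83.TS.par) bUPC bCNTP

end Pool.Agent.Results.MP_b907b5_co.SpaceBound
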